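import Mathlib
import Pool.Agent.W936.LC.Local
import Pool.Agent.W936.RO.Ext

/-!
Closure properties of classes of polynomials on which a generator with a base point is faithful:
sums of unboundedly many polynomials whose sets of variables form a thin hypergraph, and gates
whose arguments share few variables.
-/

set_option autoImplicit false

namespace Pool.Agent.W936.XN

open MvPolynomial Module Pool.Agent.H530R2 Pool.Agent.W936.RO Pool.Agent.W936.WB
  Pool.Agent.W936.LC

variable {n : ℕ}

/-- `Thin w κ r J V`: the hypergraph with the edges `V i` (`i ∈ J`) is thin of depth `r`. Depth `0`: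
there are at most `κ` edges. Depth `r + 1`: up to at most `w` exceptions, the link of every vertex
`x`, which consists of the sets `V i \ {x}` with `x ∈ V i`, is thin of depth `r`. -/
def Thin (w κ : ℕ) {I : Type} : ℕ → Finset I → (I → Finset (Fin n)) → Prop
  | 0, J, _ => J.card ≤ κ
  | r + 1, J, V => ∃ E : Finset (Fin n), E.card ≤ w ∧
      ∀ x, x ∉ E → Thin w κ r (J.filter fun i => x ∈ V i) (fun i => (V i).erase x)

theorem thin_double {w κ r : ℕ} {I : Type} {J : Finset I} {V : I → Finset (Fin n)}
    (h : Thin w κ r J V) :
    Thin w (2 * κ) r (J ×ˢ (Finset.univ : Finset Bool)) (fun p => V p.1) := by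
  classical
  induction r generalizing J V with
  | zero =>
    show (J ×ˢ (Finset.univ : Finset Bool)).card ≤ 2 * κ
    have h1 : J.card ≤ κ := h
    rw [Finset.card_product, Finset.card_univ, Fintype.card_bool]
    omega
  | succ r ih =>
    obtain ⟨E, hE, hx⟩ := h
    refine ⟨E, hE, fun x hxE => ?_⟩
    have h1 := ih (hx x hxE)
    have h2 : (J ×ˢ (Finset.univ : Finset Bool)).filter (fun p => x ∈ V p.1) =
        (J.filter fun i => x ∈ V i) ×ˢ (Finset.univ : Finset Bool) := by
      ext p
      simp only [Finset.mem_filter, Finset.mem_product, Finset.mem_univ, and_true]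
    rw [← h2] at h1
    exact h1

/-- hypergraphs in which any `r` vertices outside of `E` are contained in at most `κ` edges -/
theorem thin_of_sets {w κ : ℕ} (E : Finset (Fin n)) (hE : E.card ≤ w) {I : Type} (r : ℕ) :
    ∀ (J : Finset I) (V : I → Finset (Fin n)), (∀ S : Finset (Fin n), S.card = r →
      Disjoint S E → (J.filter fun i => S ⊆ V i).card ≤ κ) → Thin w κ r J V := by
  classical
  induction r with
  | zero =>
    intro J V h
    have h1 := h ∅ rfl (Finset.disjoint_empty_left E)
    rwa [Finset.filter_true_of_mem (fun i _ => Finset.empty_subset _)] at h1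
  | succ r ih =>
    intro J V h
    refine ⟨E, hE, fun x hx => ih _ _ fun S hS hSE => ?_⟩
    by_cases hxS : x ∈ S
    · refine le_trans (le_of_eq ?_) (Nat.zero_le κ)
      rw [Finset.card_eq_zero, Finset.filter_eq_empty_iff]
      intro i _ hi
      exact Finset.notMem_erase x _ (hi hxS)
    · refine le_trans (Finset.card_le_card ?_) (h (insert x S)
        (by rw [Finset.card_insert_of_notMem hxS, hS])
        (Finset.disjoint_insert_left.2 ⟨hx, hSE⟩))
      intro i hi
      rw [Finset.mem_filter, Finset.mem_filter] at hi
      rw [Finset.mem_filter]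
      exact ⟨hi.1.1, Finset.insert_subset hi.1.2 (hi.2.trans (Finset.erase_subset _ _))⟩

section subst

theorem vars_sbt' {R : Type*} [CommRing R] (x : Fin n) (a : R) (f : MvPolynomial (Fin n) R)
    {i : Fin n} (hi : i ∈ (sbt x a f).vars) : i ≠ x ∧ i ∈ f.vars := by
  classical
  constructor
  · have h8 : ∀ p : MvPolynomial (Fin n) R, sbt x a p ∈ supported R {k : Fin n | k ≠ x} := by
      intro p
      induction p using MvPolynomial.induction_on with
      | C r => rw [sbt_C]; exact Subalgebra.algebraMap_mem _ r
      | add p q hp hq => rw [map_add]; exact Subalgebra.add_mem _ hp hq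
      | mul_X p i hp =>
        rw [map_mul]
        refine Subalgebra.mul_mem _ hp ?_
        by_cases hi : i = x
        · subst hi
          rw [sbt_self]
          exact Subalgebra.algebraMap_mem _ a
        · rw [sbt_ne _ hi]
          exact Algebra.subset_adjoin ⟨i, hi, rfl⟩
    have h9 := h8 f
    rw [mem_supported] at h9
    exact h9 (Finset.mem_coe.2 hi)
  · have h8 : f ∈ Algebra.adjoin R (X '' (f.vars : Set (Fin n)) : Set (MvPolynomial (Fin n) R)) :=
      mem_supported.2 (Set.Subset.refl _)
    have h9 : ∀ p ∈ Algebra.adjoin R (X '' (f.vars : Set (Fin n)) :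
        Set (MvPolynomial (Fin n) R)), sbt x a p ∈ supported R (f.vars : Set (Fin n)) := by
      intro p hp
      induction hp using Algebra.adjoin_induction with
      | mem y hy =>
        obtain ⟨k, hk, rfl⟩ := hy
        by_cases h : k = x
        · subst h
          rw [sbt_self]
          exact Subalgebra.algebraMap_mem _ a
        · rw [sbt_ne a h]
          exact Algebra.subset_adjoin ⟨k, hk, rfl⟩
      | algebraMap r =>
        rw [MvPolynomial.algebraMap_eq, sbt_C]
        exact Subalgebra.algebraMap_mem _ r
      | add p q _ _ hp hq => rw [map_add]; exact Subalgebra.add_mem _ hp hq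
      | mul p q _ _ hp hq => rw [map_mul]; exact Subalgebra.mul_mem _ hp hq
    exact Finset.mem_coe.1 ((mem_supported.1 (h9 f h8)) (Finset.mem_coe.2 hi))

/-- only finitely many values of a variable are zeros -/
theorem fin_eval {h : MvPolynomial (Fin n) ℂ} {p : Fin n → ℂ} (x : Fin n)
    (hp : eval p h ≠ 0) : {a : ℂ | eval (Function.update p x a) h = 0}.Finite := by
  set q : Polynomial ℂ := aeval (fun i => if i = x then Polynomial.X else Polynomial.C (p i)) h
    with hq
  have h1 : ∀ a, q.eval a = eval (Function.update p x a) h := by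
    intro a
    rw [hq, Pool.Agent.H626R2.Loc.S7.eval_aeval]
    congr 2
    funext i
    by_cases hi : i = x
    · subst hi
      rw [if_pos rfl, Polynomial.eval_X, Function.update_self]
    · rw [if_neg hi, Polynomial.eval_C, Function.update_of_ne hi]
  have h2 : q ≠ 0 := by
    intro h0
    apply hp
    have h3 := h1 (p x)
    rw [h0, Polynomial.eval_zero, Function.update_eq_self] at h3
    exact h3.symm
  refine (Polynomial.finite_setOfPred_isRoot h2).subset fun a ha => ?_
  show q.eval a = 0
  rw [h1]
  exact ha

/-- a polynomial that does not change under general substitutions for `x` does not depend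
on `x` -/
theorem eq_sbt_fin {x : Fin n} {f : MvPolynomial (Fin n) ℂ} {B : Set ℂ} (hB : B.Finite)
    (h : ∀ a b : ℂ, a ∉ B → b ∉ B → sbt x a f - sbt x b f = 0) : ∃ b : ℂ, f = sbt x b f := by
  obtain ⟨b, hb⟩ := hB.exists_notMem
  refine ⟨b, ?_⟩
  by_contra hne
  have h0 : f - sbt x b f ≠ 0 := sub_ne_zero.2 hne
  obtain ⟨p, hp⟩ : ∃ p, eval p (f - sbt x b f) ≠ 0 := by
    by_contra hcon
    push Not at hcon
    exact h0 (MvPolynomial.funext fun p => by rw [hcon p, map_zero])
  obtain ⟨a, ha⟩ := (hB.union (fin_eval x hp)).exists_notMem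
  rw [Set.mem_union, not_or] at ha
  apply ha.2
  show eval (Function.update p x a) (f - sbt x b f) = 0
  rw [← eval_sbt, map_sub]
  have h1 : sbt x a (sbt x b f) = sbt x b f := by
    refine sbt_supp a ?_
    rw [mem_supported]
    intro i hi
    exact (vars_sbt' x b f (Finset.mem_coe.1 hi)).1
  rw [h1, h a b ha.1 hb, map_zero]

end subst

/-- the generator with `m` seeds does not kill the sum of `h` and a polynomial in at most `w`
variables, unless it is zero -/
def HitE (β : Fin n → Polynomial ℂ) (m w : ℕ) (h : MvPolynomial (Fin n) ℂ) : Prop :=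
  ∀ S : Finset (Fin n), S.card ≤ w → ∀ e ∈ supported (RatFunc ℂ) (S : Set (Fin n)),
    sext h + e ≠ 0 → sext h + e ∉ (rVan β).I m ∅

theorem HitE.mono {β : Fin n → Polynomial ℂ} {m m' w : ℕ} {h : MvPolynomial (Fin n) ℂ}
    (hh : HitE β m w h) (hm : m ≤ m') : HitE β m' w h :=
  fun S hS e he hne hmem => hh S hS e he hne ((rVan β).mono hm ∅ hmem)

/-- sums of polynomials whose sets of variables form a thin hypergraph -/
theorem thin_hit {β : Fin n → Polynomial ℂ} {m w : ℕ} {Gd : MvPolynomial (Fin n) ℂ → Prop}
    (P1 : ∀ g, Gd g → ∀ x, {a : ℂ | ¬ Gd (sbt x a g)}.Finite) (r : ℕ) : ∀ {κ : ℕ},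
    (∀ (I : Type) (J : Finset I) (c : I → ℂ) (g : I → MvPolynomial (Fin n) ℂ),
      J.card ≤ 2 ^ r * κ → (∀ i ∈ J, Gd (g i)) → HitE β m w (∑ i ∈ J, C (c i) * g i)) →
    ∀ (I : Type) (J : Finset I) (c : I → ℂ) (g : I → MvPolynomial (Fin n) ℂ)
      (V : I → Finset (Fin n)), (∀ i ∈ J, Gd (g i) ∧ (g i).vars ⊆ V i) → Thin w κ r J V →
      HitE β (m + r + 2 * w) w (∑ i ∈ J, C (c i) * g i) := by
  classical
  induction r with
  | zero =>
    intro κ P2 I J c g V hg hJ
    have hJ' : J.card ≤ κ := hJ
    exact (P2 I J c g (by rwa [pow_zero, one_mul]) (fun i hi => (hg i hi).1)).mono (by omega)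
  | succ r ih =>
    intro κ P2 I J c g V hg hJ S hS e he hne hmem
    obtain ⟨E, hE, hth⟩ := hJ
    set f := ∑ i ∈ J, C (c i) * g i with hf
    have hind : ∀ x, x ∉ E ∪ S → ∃ b : ℂ, f = sbt x b f := by
      intro x hx
      rw [Finset.mem_union, not_or] at hx
      refine eq_sbt_fin (B := ⋃ i ∈ J, {a : ℂ | ¬ Gd (sbt x a (g i))})
        (J.finite_toSet.biUnion fun i hi => P1 _ (hg i (Finset.mem_coe.1 hi)).1 x) ?_
      intro a b ha hb
      by_contra hab
      have hgood : ∀ i ∈ J, ∀ t : Bool, Gd (sbt x (if t then a else b) (g i)) := by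
        intro i hi t
        cases t with
        | true =>
          by_contra hc
          exact ha (Set.mem_biUnion (Finset.mem_coe.2 hi) hc)
        | false =>
          by_contra hc
          exact hb (Set.mem_biUnion (Finset.mem_coe.2 hi) hc)
      have h1 := ih (κ := 2 * κ) (fun I J c g hJ hg => P2 I J c g
          (hJ.trans (le_of_eq (by ring))) hg) (I × Bool)
        ((J.filter fun i => x ∈ V i) ×ˢ (Finset.univ : Finset Bool))
        (fun p => if p.2 then c p.1 else - c p.1)
        (fun p => sbt x (if p.2 then a else b) (g p.1)) (fun p => (V p.1).erase x) ?_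
        (thin_double (hth x hx.1))
      · have h2 : ∑ p ∈ (J.filter fun i => x ∈ V i) ×ˢ (Finset.univ : Finset Bool),
            C (if p.2 then c p.1 else - c p.1) * sbt x (if p.2 then a else b) (g p.1) =
            sbt x a f - sbt x b f := by
          rw [hf, map_sum, map_sum, ← Finset.sum_sub_distrib, Finset.sum_product,
            Finset.sum_filter]
          refine Finset.sum_congr rfl fun i hi => ?_
          rw [map_mul, map_mul, sbt_C, sbt_C]
          by_cases hxi : x ∈ V i
          · rw [if_pos hxi, Fintype.sum_bool]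
            simp only [if_true, Bool.false_eq_true, if_false, C_neg]
            ring
          · rw [if_neg hxi]
            have h3 : ∀ a : ℂ, sbt x a (g i) = g i := by
              intro a
              refine sbt_supp a ?_
              rw [mem_supported]
              intro k hk
              show k ≠ x
              rintro rfl
              exact hxi ((hg i hi).2 (Finset.mem_coe.1 hk))
            rw [h3, h3, sub_self]
        rw [h2] at h1
        have h4 := h1 ∅ (Nat.zero_le _) 0 (Subalgebra.zero_mem _)
        rw [add_zero] at h4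
        refine h4 (fun h5 => hab (ext_inj (by rw [h5, map_zero]))) ?_
        have h6 : sext f + e ∈ (rVan β).I (m + r + 2 * w) (insert x ∅) :=
          (rVan β).free _ ∅ x _ ((rVan β).mono (by omega) ∅ hmem)
        have hcoef : Coef (rVan β) := shVan_coef _ (natInj n) (rpt β)
        have h7 : ∀ t : ℂ, sbt x (algebraMap ℂ (RatFunc ℂ) t) (sext f + e) =
            sext (sbt x t f) + e := by
          intro t
          rw [map_add, sbt_map, sbt_supp (c := e)]
          rw [mem_supported]
          intro k hk
          show k ≠ x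
          rintro rfl
          exact hx.2 (Finset.mem_coe.1 ((mem_supported.1 he) hk))
        have h8 := sbt_mem hcoef (Finset.mem_insert_self x ∅) h6 (algebraMap ℂ (RatFunc ℂ) a)
        have h9 := sbt_mem hcoef (Finset.mem_insert_self x ∅) h6 (algebraMap ℂ (RatFunc ℂ) b)
        rw [h7] at h8 h9
        have h10 := shVan_anti (rpt β) _ _ (Ideal.sub_mem _ h8 h9)
        have h11 : sext (sbt x a f) + e - (sext (sbt x b f) + e) =
            sext (sbt x a f - sbt x b f) := by
          rw [map_sub]
          ring
        rw [h11] at h10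
        exact h10
      · intro p hp
        rw [Finset.mem_product, Finset.mem_filter] at hp
        refine ⟨hgood _ hp.1.1 _, fun i hi => ?_⟩
        obtain ⟨h5, h6⟩ := vars_sbt' x _ _ hi
        exact Finset.mem_erase.2 ⟨h5, (hg _ hp.1.1).2 h6⟩
    have hsup : sext f + e ∈ supported (RatFunc ℂ) ((E ∪ S : Finset (Fin n)) : Set (Fin n)) := by
      refine Subalgebra.add_mem _ ?_ (supported_mono ?_ he)
      · rw [mem_supported, ext_vars]
        intro x hx
        by_contra hxE
        obtain ⟨b, hb⟩ := hind x (fun h => hxE (Finset.mem_coe.2 h))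
        rw [hb] at hx
        exact (vars_sbt' x b f (Finset.mem_coe.1 hx)).1 rfl
      · intro i hi
        exact Finset.mem_coe.2 (Finset.mem_union_right _ (Finset.mem_coe.1 hi))
    apply hne
    have hcard : (E ∪ S).card ≤ 2 * w := (Finset.card_union_le _ _).trans (by omega)
    have h12 := (rVan β).free_set (E ∪ S) 0 ∅ ((rVan β).mono (by omega) ∅ hmem)
    rw [Finset.empty_union] at h12
    exact (rVan β).supp 0 _ _ hsup h12

end Pool.Agent.W936.XN
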