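import Mathlib
import Pool.Agent.W936.XN.Clo

/-!
Gates whose arguments share few variables, for a generator with a base point.
-/

set_option autoImplicit false

namespace Pool.Agent.W936.XN

open MvPolynomial Module Pool.Agent.H530R2 Pool.Agent.W936.RO Pool.Agent.W936.WB

variable {n : ℕ}

/-- the property which is preserved by the gates -/
def HitS (β : Fin n → Polynomial ℂ) (m : ℕ) (S : Finset (Fin n)) (f : MvPolynomial (Fin n) ℂ) :
    Prop :=
  Hit (fun i : Fin n => ((i.val : ℕ) : FF (RatFunc ℂ) n)) m S (psi (rpt β) ∅ (sext f))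

theorem hitS_of {β : Fin n → Polynomial ℂ} {m w : ℕ} {S : Finset (Fin n)}
    {f : MvPolynomial (Fin n) ℂ} (h : HitE β m w f) (hS : S.card ≤ w) : HitS β m S f := by
  intro hmem
  have h1 : cut _ S (psi (rpt β) ∅ (sext f)) = psi (rpt β) ∅ (spe (rpt β) S (sext f)) := by
    rw [cut_psi, Finset.empty_union]
  rw [h1] at hmem ⊢
  rw [← map_sub, ← mem_iff_psi] at hmem
  by_contra hne
  refine h S hS (- spe (rpt β) S (sext f)) (Subalgebra.neg_mem _ (spe_supported _ _ _)) ?_ ?_
  · intro h2
    apply hne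
    rw [← sub_eq_add_neg, sub_eq_zero] at h2
    exact congrArg _ h2
  · rw [← sub_eq_add_neg]
    exact hmem

theorem hitS_ne {β : Fin n → Polynomial ℂ} {m : ℕ} (hm : 0 < m) {S : Finset (Fin n)}
    (hS : S.card < m) {f : MvPolynomial (Fin n) ℂ}
    (h : HitS β m S f) (h0 : f ≠ 0) : sext f ∉ (rVan β).I m ∅ := by
  intro hmem
  obtain ⟨G⟩ := exists_genPt (fun i : Fin n => ((i.val : ℕ) : FF (RatFunc ℂ) n))
    (ff_natInj (F := RatFunc ℂ) n) m hm
    (FractionRing (MvPolynomial (Fin m ⊕ Fin m) (FF (RatFunc ℂ) n)))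
  have hinf : Infinite (FF (RatFunc ℂ) n) :=
    Infinite.of_injective _ (algebraMap (RatFunc ℂ) (FF (RatFunc ℂ) n)).injective
  have h1 := Hit.eq_zero G (ff_natInj (F := RatFunc ℂ) n) hS h ((mem_iff_psi _ _ _ _).1 hmem)
  exact h0 (ext_inj (by rw [psi_inj _ _ h1, map_zero]))

theorem hitS_mul {β : Fin n → Polynomial ℂ} {m : ℕ} {S : Finset (Fin n)} (hS : S.card < m)
    {f g : MvPolynomial (Fin n) ℂ} (hf : HitS β m S f) (hg : HitS β m S g) :
    HitS β m S (f * g) := by
  obtain ⟨G⟩ := exists_genPt (fun i : Fin n => ((i.val : ℕ) : FF (RatFunc ℂ) n))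
    (ff_natInj (F := RatFunc ℂ) n) m (Nat.zero_lt_of_lt hS)
    (FractionRing (MvPolynomial (Fin m ⊕ Fin m) (FF (RatFunc ℂ) n)))
  have hinf : Infinite (FF (RatFunc ℂ) n) :=
    Infinite.of_injective _ (algebraMap (RatFunc ℂ) (FF (RatFunc ℂ) n)).injective
  show Hit _ _ _ _
  rw [map_mul, map_mul]
  exact Hit.mul G (ff_natInj (F := RatFunc ℂ) n) hS hf hg

theorem hitS_gate {β : Fin n → Polynomial ℂ} {m : ℕ} {S B : Finset (Fin n)} (hB : B.card < m)
    {f g h : MvPolynomial (Fin n) ℂ} (hfg : f.vars ∩ g.vars ⊆ B)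
    (hS : S ∩ (f.vars ∪ g.vars) ⊆ B) (hf : HitS β m B f) (hg : HitS β m B g)
    (hh : h ∈ Algebra.adjoin ℂ (({f, g} : Set (MvPolynomial (Fin n) ℂ)) ∪
      X '' (B : Set (Fin n)))) : HitS β m S h := by
  classical
  obtain ⟨G⟩ := exists_genPt (fun i : Fin n => ((i.val : ℕ) : FF (RatFunc ℂ) n))
    (ff_natInj (F := RatFunc ℂ) n) m (Nat.zero_lt_of_lt hB)
    (FractionRing (MvPolynomial (Fin m ⊕ Fin m) (FF (RatFunc ℂ) n)))
  have hinf : Infinite (FF (RatFunc ℂ) n) :=
    Infinite.of_injective _ (algebraMap (RatFunc ℂ) (FF (RatFunc ℂ) n)).injective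
  set U := psi (rpt β) ∅ (sext f) with hU
  set V := psi (rpt β) ∅ (sext g) with hV
  have hUv : U.vars ⊆ f.vars := by
    have h1 := psi_vars (rpt β) ∅ (f := sext f) (S := (f.vars : Set (Fin n)))
      (by rw [mem_supported, ext_vars])
    exact_mod_cast mem_supported.1 h1
  have hVv : V.vars ⊆ g.vars := by
    have h1 := psi_vars (rpt β) ∅ (f := sext g) (S := (g.vars : Set (Fin n)))
      (by rw [mem_supported, ext_vars])
    exact_mod_cast mem_supported.1 h1
  obtain ⟨H, hH⟩ : ∃ H : MvPolynomial (Fin 2)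
      (supported (FF (RatFunc ℂ) n) (B : Set (Fin n))),
      psi (rpt β) ∅ (sext h) = aeval ![U, V] H := by
    clear hf hg hS
    induction hh using Algebra.adjoin_induction with
    | mem x hx =>
      rcases hx with hx | ⟨i, hi, rfl⟩
      · rcases hx with rfl | hx
        · exact ⟨X 0, by rw [aeval_X]; rfl⟩
        · rw [Set.mem_singleton_iff] at hx
          subst hx
          exact ⟨X 1, by rw [aeval_X]; rfl⟩
      · refine ⟨C ⟨X i + C (algebraMap (RatFunc ℂ) (FF (RatFunc ℂ) n) (rpt β i)),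
          Subalgebra.add_mem _ (X_mem_supported.2 hi) (Subalgebra.algebraMap_mem _ _)⟩, ?_⟩
        rw [map_X, psi_not_mem _ (Finset.notMem_empty i), aeval_C]
        rfl
    | algebraMap r =>
      refine ⟨C ⟨C (algebraMap (RatFunc ℂ) (FF (RatFunc ℂ) n) (algebraMap ℂ (RatFunc ℂ) r)),
        Subalgebra.algebraMap_mem _ _⟩, ?_⟩
      rw [MvPolynomial.algebraMap_eq, map_C, psi_C, aeval_C]
      rfl
    | add x y _ _ hx hy =>
      obtain ⟨H1, h1⟩ := hx
      obtain ⟨H2, h2⟩ := hy
      exact ⟨H1 + H2, by rw [map_add, map_add, map_add, h1, h2]⟩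
    | mul x y _ _ hx hy =>
      obtain ⟨H1, h1⟩ := hx
      obtain ⟨H2, h2⟩ := hy
      exact ⟨H1 * H2, by rw [map_mul, map_mul, map_mul, h1, h2]⟩
  show Hit _ _ _ _
  rw [hH]
  refine Hit.gate G (ff_natInj (F := RatFunc ℂ) n) hB hf hg ?_ ?_ _
  · exact (Finset.inter_subset_inter hUv hVv).trans hfg
  · exact (Finset.inter_subset_inter_left (Finset.union_subset_union hUv hVv)).trans hS

/-- `Net Bs w S f`: the polynomial `f` is computed from the members of `Bs` by products and by
gates, where the set `S` of variables is the bag of the gate above.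
* `base`: the members of `Bs`.
* `product`: a product of two members (with the same bag above).
* `gate`: a polynomial `h` in `f`, `g` and the variables of a bag `B` of at most `w` variables. The
  bag contains all variables which occur in `f` and in `g`, and all variables of the bag `S`
  which occur in `f` or in `g`. -/
inductive Net (Bs : MvPolynomial (Fin n) ℂ → Prop) (w : ℕ) :
    Finset (Fin n) → MvPolynomial (Fin n) ℂ → Prop
  | base {S : Finset (Fin n)} {f : MvPolynomial (Fin n) ℂ} : Bs f → Net Bs w S f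
  | product {S : Finset (Fin n)} {f g : MvPolynomial (Fin n) ℂ} : Net Bs w S f →
      Net Bs w S g → Net Bs w S (f * g)
  | gate {S B : Finset (Fin n)} {f g h : MvPolynomial (Fin n) ℂ} : B.card ≤ w →
      f.vars ∩ g.vars ⊆ B → S ∩ (f.vars ∪ g.vars) ⊆ B → Net Bs w B f → Net Bs w B g →
      h ∈ Algebra.adjoin ℂ (({f, g} : Set (MvPolynomial (Fin n) ℂ)) ∪ X '' (B : Set (Fin n))) →
      Net Bs w S h

/-- nets over a class on which the generator is faithful -/
theorem net_hit {β : Fin n → Polynomial ℂ} {m w : ℕ} {Bs : MvPolynomial (Fin n) ℂ → Prop}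
    (hB : ∀ f, Bs f → HitE β m w f) {f : MvPolynomial (Fin n) ℂ} (hf : Net Bs w ∅ f)
    (h0 : f ≠ 0) : sext f ∉ (rVan β).I (m + w + 1) ∅ := by
  have key : ∀ (S : Finset (Fin n)) (f : MvPolynomial (Fin n) ℂ), Net Bs w S f →
      S.card ≤ w → HitS β (m + w + 1) S f := by
    intro S f hf
    induction hf with
    | base h =>
      intro hS
      exact hitS_of ((hB _ h).mono (by omega)) hS
    | product _ _ ihf ihg =>
      intro hS
      exact hitS_mul (by omega) (ihf hS) (ihg hS)
    | gate hB h1 h2 _ _ hh ihf ihg =>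
      intro _
      exact hitS_gate (by omega) h1 h2 (ihf hB) (ihg hB) hh
  refine hitS_ne (by omega) (S := ∅) (by rw [Finset.card_empty]; omega)
    (key ∅ f hf (by rw [Finset.card_empty]; omega)) h0

end Pool.Agent.W936.XN
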