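import Mathlib
import Pool.Agent.W936.XN.Gat
import Pool.Agent.Results.MP_e2be99_lc.FormulasOverSparse

/-!
The search for an origin, for general lists of tests.
-/

set_option autoImplicit false

namespace Pool.Agent.W936.XN

open MvPolynomial Pool.Agent.H530R2 Pool.Agent.W936.RO Pool.Agent.W936.WB

open Pool.Agent.H626R2.Loc (evG)

open Pool.Agent.Results.MP_e2be99_lc.FormulasOverSparse (Run points exists_point)

variable {n : ℕ}

/-- lists of polynomials, each of which is hit at all origins at which the polynomials before it do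
not vanish -/
inductive AdmH (N M : ℕ) : List (MvPolynomial (Fin n) ℂ) → Prop
  | nil : AdmH N M []
  | snoc {L : List (MvPolynomial (Fin n) ℂ)} {g : MvPolynomial (Fin n) ℂ} : AdmH N M L →
      (∀ σ : Fin n → ℂ, (∀ i, σ i ≠ 0) → (∀ x ∈ L, x ≠ 0 → eval σ x ≠ 0) → g ≠ 0 →
        sext g ∉ (rVan (sbase σ N)).I M ∅) → AdmH N M (L ++ [g])

/-- all nonzero polynomials of the list are kept -/
theorem run_keep {M N d : ℕ} {L : List (MvPolynomial (Fin n) ℂ)} (hL : AdmH N M L) :
    n + (L.map totalDegree).sum ≤ d →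
    ∀ {σ : Fin n → ℤ} {K : List (MvPolynomial (Fin n) ℂ)}, Run (points n M N d) L σ K →
    ∀ g ∈ L, g ≠ 0 → g ∈ K := by
  induction hL with
  | nil => exact fun _ σ K _ g hg => absurd hg List.not_mem_nil
  | @snoc L g _ hg ih =>
    intro hD σ K hrun
    obtain ⟨σ₀, K₀, hrun₀, hK⟩ := hrun.snoc
    have hD' := hD
    rw [List.map_append, List.sum_append] at hD'
    have ih' := ih (by omega) hrun₀
    have hsub : ∀ x ∈ K₀, x ∈ K := by
      rcases hK with ⟨rfl, _⟩ | rfl
      · exact fun x hx => hx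
      · exact fun x hx => List.mem_cons_of_mem _ hx
    intro g' hg' hg'0
    rcases List.mem_append.1 hg' with h | h
    · exact hsub _ (ih' g' h hg'0)
    obtain rfl : g' = g := List.mem_singleton.1 h
    rcases hK with ⟨rfl, hno⟩ | rfl
    · exfalso
      obtain ⟨hkeep, hdeg, _⟩ := hrun₀.keep
      have hσ0 : ∀ i, ((σ₀ i : ℤ) : ℂ) ≠ 0 := fun i => by exact_mod_cast hrun₀.ne i
      have h1 : evG ℂ (sbase (fun i => ((σ₀ i : ℤ) : ℂ)) N) M g' ≠ 0 := by
        intro hc
        exact hg (fun i => ((σ₀ i : ℤ) : ℂ)) hσ0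
          (fun x hx hx0 => hkeep x (ih' x hx hx0)) hg'0 (mem_rVan hc)
      have h2 : ∀ x ∈ g' :: K, evG ℂ (sbase (fun i => ((σ₀ i : ℤ) : ℂ)) N) M x ≠ 0 := by
        intro x hx
        rcases List.mem_cons.1 hx with rfl | hx
        · exact h1
        · exact evB_ne (sbase_ne_of_eval (hkeep x hx))
      have h3 : evG ℂ (sbase (fun i => ((σ₀ i : ℤ) : ℂ)) N) M (g' :: K).prod ≠ 0 := by
        rw [map_list_prod]
        refine List.prod_ne_zero ?_
        intro hc
        obtain ⟨x, hx, hx0⟩ := List.mem_map.1 hc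
        exact h2 x hx hx0
      have h4 : (g' :: K).prod.totalDegree ≤ d := by
        refine (totalDegree_list_prod _).trans ?_
        rw [List.map_cons, List.sum_cons]
        simp only [List.map_cons, List.map_nil, List.sum_cons, List.sum_nil] at hD'
        omega
      obtain ⟨p, hp, hpe⟩ := exists_point h3 h4
      obtain ⟨h, hh, hh0⟩ := hno p hp
      apply hpe
      rw [map_list_prod]
      exact List.prod_eq_zero (List.mem_map.2 ⟨h, hh, hh0⟩)
    · exact List.mem_cons_self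

/-- factors of products of members of a class which is hit at the final origin -/
theorem run_hit {M N d : ℕ} {L : List (MvPolynomial (Fin n) ℂ)} (hL : AdmH N M L)
    (hd : n + (L.map totalDegree).sum ≤ d) {Cls : MvPolynomial (Fin n) ℂ → Prop}
    (hC : ∀ σ : Fin n → ℂ, (∀ i, σ i ≠ 0) → (∀ x ∈ L, x ≠ 0 → eval σ x ≠ 0) →
      ∀ f, Cls f → f ≠ 0 → sext f ∉ (rVan (sbase σ N)).I M ∅)
    {σ : Fin n → ℤ} {K : List (MvPolynomial (Fin n) ℂ)} (hrun : Run (points n M N d) L σ K)
    {f : MvPolynomial (Fin n) ℂ} {F : Multiset (MvPolynomial (Fin n) ℂ)}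
    (hF : ∀ g ∈ F, Cls g ∧ g ≠ 0) (hdvd : f ∣ F.prod) (hfd : f.totalDegree ≤ d) :
    ∃ p ∈ points n M N d σ, eval (fun i => (p i : ℂ)) f ≠ 0 := by
  refine exists_point (fun hz => ?_) hfd
  obtain ⟨g, hg⟩ := hdvd
  have h2 : evG ℂ (sbase (fun i => ((σ i : ℤ) : ℂ)) N) M F.prod = 0 := by
    rw [hg, map_mul, hz, zero_mul]
  rw [map_multiset_prod, Multiset.prod_eq_zero_iff, Multiset.mem_map] at h2
  obtain ⟨g', hg', hg0⟩ := h2
  obtain ⟨hkeep, _, _⟩ := hrun.keep
  exact hC (fun i => ((σ i : ℤ) : ℂ)) (fun i => by exact_mod_cast hrun.ne i)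
    (fun x hx hx0 => hkeep x (run_keep hL hd hrun x hx hx0)) g' (hF g' hg').1 (hF g' hg').2
    (mem_rVan hg0)

end Pool.Agent.W936.XN
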